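import Pool.Agent.helper38.OP.Spec

/-! Row LOW of project OP. -/

set_option autoImplicit false

namespace Pool.Agent.OP

open Finset Real Pool.Agent.AT Pool.Agent.helper85.FC Pool.Agent.OM

theorem LOW_sm (M T : ℕ) (f : ℤ → ℝ) (v : ℤ) (hf : ∀ x, 0 ≤ f x ∧ f x ≤ 1) (hT : 1 ≤ T) :
    0 ≤ sm M T f v ∧ sm M T f v ≤ 1 := by
  have hTp : (0 : ℝ) < T := by exact_mod_cast hT
  refine ⟨div_nonneg (Finset.sum_nonneg fun τ _ => (hf _).1) hTp.le, ?_⟩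
  show (∑ τ ∈ range T, f (v + M * τ)) / (T : ℝ) ≤ 1
  rw [div_le_one hTp]
  calc ∑ τ ∈ range T, f (v + M * τ) ≤ ∑ _τ ∈ range T, (1 : ℝ) := Finset.sum_le_sum fun τ _ => (hf _).2
    _ = T := by simp

theorem LOW (hSHA : SHA_stmt) : LOW_stmt := by
  intro a b L Y M κ hM hκ T hT B hB p hp p' hp' hlt
  obtain ⟨hp1, hp2⟩ := Finset.mem_product.mp hp
  obtain ⟨hq1, hq2⟩ := Finset.mem_product.mp hp'
  rw [Finset.mem_range] at hp1 hp2 hq1 hq2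
  have hm : p.1 - p'.1 ∈ Ico 1 L := by
    rw [Finset.mem_Ico]; omega
  obtain ⟨hT1, hT2⟩ := hT _ hm
  have hkr : kr a b (PQ M T B) p p' =
      PQ M T B (p.1 - p'.1) ((b : ℤ) ^ (p.1 - p'.1) * p.2 - (a : ℤ) ^ (p.1 - p'.1) * p'.2) := by
    unfold kr
    rw [if_pos hlt]
  have h1 := LOW_sm M (T (p.1 - p'.1)) (B (p.1 - p'.1))
    ((b : ℤ) ^ (p.1 - p'.1) * p.2 - (a : ℤ) ^ (p.1 - p'.1) * p'.2) (hB _) hT1
  have h2 := LOW_sm M (T (p.1 - p'.1)) (B (p.1 - p'.1))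
    ((b : ℤ) ^ (p.1 - p'.1) * p.2 - (a : ℤ) ^ (p.1 - p'.1) * (p'.2 % M : ℕ)) (hB _) hT1
  refine ⟨le_max_left _ _, ?_, ?_⟩
  · refine max_le (by norm_num) ?_
    have : PQ M T B (p.1 - p'.1) ((b : ℤ) ^ (p.1 - p'.1) * p.2 - (a : ℤ) ^ (p.1 - p'.1) * (p'.2 % M : ℕ)) ≤ 1 := h2.2
    linarith
  · rw [hkr]
    refine max_le h1.1 ?_
    have hs := hSHA M (T (p.1 - p'.1)) ((a : ℤ) ^ (p.1 - p'.1) * ((p'.2 / M : ℕ) : ℤ))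
      ((b : ℤ) ^ (p.1 - p'.1) * p.2 - (a : ℤ) ^ (p.1 - p'.1) * p'.2) (B (p.1 - p'.1)) hT1 (hB _)
    have e : (b : ℤ) ^ (p.1 - p'.1) * p.2 - (a : ℤ) ^ (p.1 - p'.1) * p'.2 +
        (M : ℤ) * ((a : ℤ) ^ (p.1 - p'.1) * ((p'.2 / M : ℕ) : ℤ)) =
        (b : ℤ) ^ (p.1 - p'.1) * p.2 - (a : ℤ) ^ (p.1 - p'.1) * (p'.2 % M : ℕ) := by
      have h3 : ((p'.2 % M : ℕ) : ℤ) + (M : ℤ) * ((p'.2 / M : ℕ) : ℤ) = (p'.2 : ℤ) := by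
        exact_mod_cast Nat.mod_add_div p'.2 M
      linear_combination ((a : ℤ) ^ (p.1 - p'.1)) * h3
    rw [e] at hs
    have hTp : (0 : ℝ) < T (p.1 - p'.1) := by exact_mod_cast hT1
    have hMp : (0 : ℝ) < M := by exact_mod_cast hM
    have hb : |(((a : ℤ) ^ (p.1 - p'.1) * ((p'.2 / M : ℕ) : ℤ) : ℤ) : ℝ)| / (T (p.1 - p'.1) : ℝ) ≤ 2 * κ := by
      rw [div_le_iff₀ hTp]
      have h4 : (0 : ℝ) ≤ (((a : ℤ) ^ (p.1 - p'.1) * ((p'.2 / M : ℕ) : ℤ) : ℤ) : ℝ) := by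
        have : (0 : ℤ) ≤ (a : ℤ) ^ (p.1 - p'.1) * ((p'.2 / M : ℕ) : ℤ) := by positivity
        exact_mod_cast this
      rw [abs_of_nonneg h4]
      have h5 : (((p'.2 / M : ℕ) : ℝ)) ≤ (Y : ℝ) / M := by
        have h6 : (((p'.2 / M : ℕ) : ℝ)) ≤ (p'.2 : ℝ) / M := Nat.cast_div_le
        have h7 : (p'.2 : ℝ) / M ≤ (Y : ℝ) / M := by
          have : (p'.2 : ℝ) ≤ Y := by exact_mod_cast hq2.le
          gcongr
        linarith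
      have h8 : (((a : ℤ) ^ (p.1 - p'.1) * ((p'.2 / M : ℕ) : ℤ) : ℤ) : ℝ) = (a : ℝ) ^ (p.1 - p'.1) * ((p'.2 / M : ℕ) : ℝ) := by
        rw [Int.cast_mul, Int.cast_pow, Int.cast_natCast, Int.cast_natCast]
      rw [h8]
      have h9 : (0 : ℝ) ≤ (a : ℝ) ^ (p.1 - p'.1) := by positivity
      calc (a : ℝ) ^ (p.1 - p'.1) * ((p'.2 / M : ℕ) : ℝ) ≤ (a : ℝ) ^ (p.1 - p'.1) * ((Y : ℝ) / M) :=
            mul_le_mul_of_nonneg_left h5 h9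
        _ = ((a : ℝ) ^ (p.1 - p'.1) * Y) / M := by ring
        _ ≤ (2 * κ * (M * T (p.1 - p'.1))) / M := by gcongr
        _ = 2 * κ * T (p.1 - p'.1) := by field_simp
    have h10 := (abs_le.mp (hs.trans hb)).2
    show PQ M T B (p.1 - p'.1) _ - 2 * κ ≤ PQ M T B (p.1 - p'.1) _
    unfold PQ
    linarith

end Pool.Agent.OP
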