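import Pool.Agent.helper38.OP.Spec

/-! Row SM2 of project OP. -/

set_option autoImplicit false

namespace Pool.Agent.OP

open Finset Real Pool.Agent.AT Pool.Agent.helper85.FC Pool.Agent.OM

theorem SM2_geom (L m₁ : ℕ) :
    ∑ m ∈ Ico 1 L, (if m₁ < m then (π / 4) ^ 2 * (1 / 4096 : ℝ) ^ (m - m₁ - 1) else 0) ≤ 1 := by
  have h0 : ∑ m ∈ Ico 1 L, (if m₁ < m then (π / 4) ^ 2 * (1 / 4096 : ℝ) ^ (m - m₁ - 1) else 0) ≤
      ∑ m ∈ Ico (m₁ + 1) L, (π / 4) ^ 2 * (1 / 4096 : ℝ) ^ (m - m₁ - 1) := by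
    rw [← Finset.sum_filter]
    refine Finset.sum_le_sum_of_subset_of_nonneg ?_ ?_
    · intro m hm
      rw [Finset.mem_filter, Finset.mem_Ico] at hm
      rw [Finset.mem_Ico]
      omega
    · intro m _ _
      positivity
  have h1 : ∑ m ∈ Ico (m₁ + 1) L, (π / 4) ^ 2 * (1 / 4096 : ℝ) ^ (m - m₁ - 1) =
      (π / 4) ^ 2 * ∑ i ∈ range (L - (m₁ + 1)), (1 / 4096 : ℝ) ^ i := by
    rw [Finset.sum_Ico_eq_sum_range, Finset.mul_sum]
    refine Finset.sum_congr rfl fun i _ => ?_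
    have : m₁ + 1 + i - m₁ - 1 = i := by omega
    rw [this]
  have h2 : ∑ i ∈ range (L - (m₁ + 1)), (1 / 4096 : ℝ) ^ i ≤ 4096 / 4095 := by
    rw [geom_sum_eq (by norm_num)]
    have h3 : (0 : ℝ) ≤ (1 / 4096 : ℝ) ^ (L - (m₁ + 1)) := by positivity
    rw [div_le_iff_of_neg (by norm_num)]
    linarith
  have h4 : (π / 4) ^ 2 ≤ 0.7 := by
    have h5 := Real.pi_lt_d2
    have h6 := Real.pi_pos
    nlinarith
  calc _ ≤ _ := h0
    _ = _ := h1
    _ ≤ 0.7 * (4096 / 4095) := by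
        refine mul_le_mul h4 h2 ?_ (by norm_num)
        exact Finset.sum_nonneg fun i _ => by positivity
    _ ≤ 1 := by norm_num

theorem SM2 (hGEO : OM.GEO_stmt) (hAR2 : AR2_stmt) : SM2_stmt := by
  classical
  intro a b L Y κ ha hL hY hκ0 hκ1 hab D T hD hT α β w hw hw2
  have hLr : (1 : ℝ) ≤ L := by exact_mod_cast hL
  have hLp : (0 : ℝ) < L := by linarith
  have hYp : (0 : ℝ) < Y := by exact_mod_cast hY
  have hs1 : 1 ≤ √(L : ℝ) := by
    rw [Real.one_le_sqrt]; exact hLr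
  have hs0 : 0 < √(L : ℝ) := by linarith
  have har : (1 : ℝ) ≤ a := by exact_mod_cast ha
  have hbr : 64 * (a : ℝ) ≤ b := by
    have hk2 : κ ^ 2 ≤ 1 := by nlinarith
    have hb0 : (0 : ℝ) ≤ b := Nat.cast_nonneg b
    nlinarith
  have hbp : (0 : ℝ) < b := by linarith
  have h2ab : 2 * a ≤ b := by
    have : (2 * a : ℝ) ≤ b := by linarith
    exact_mod_cast this
  set ρ : ℝ := √(L : ℝ) / Y with hρ
  have hρ0 : 0 < ρ := by positivity
  set F : ℕ → ℝ := fun m => FD (D m) ((a : ℝ) ^ m * α + (b : ℝ) ^ m * β) with hF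
  have hF01 : ∀ m, 0 ≤ F m ∧ F m ≤ 1 := fun m => ⟨(hGEO _ _).1, (hGEO _ _).2.1⟩
  -- not resonant
  have hnon : ∀ m ∈ Ico 1 L, ¬ Near ((a : ℝ) ^ m * α + (b : ℝ) ^ m * β) (ρ * b ^ m) → w m * F m ≤ 4 / L := by
    intro m hm hnr
    obtain ⟨hD1, hD2⟩ := hD m hm
    have hDp : (0 : ℝ) < D m := by exact_mod_cast hD1
    have h1 := (hGEO (D m) ((a : ℝ) ^ m * α + (b : ℝ) ^ m * β)).2.2 (ρ * b ^ m) (by positivity) hD1 hnr
    have h2 : √(L : ℝ) ≤ 2 * D m * (ρ * b ^ m) := by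
      have h3 : (Y : ℝ) ≤ 2 * (b ^ m * D m) := by exact_mod_cast hD2
      have h4 : 2 * (D m : ℝ) * (ρ * b ^ m) = √(L : ℝ) * ((2 * (b ^ m * D m)) / Y) := by
        rw [hρ]; field_simp
      rw [h4]
      have h5 : 1 ≤ (2 * ((b : ℝ) ^ m * D m)) / Y := by
        rw [one_le_div hYp]; exact h3
      nlinarith
    have h3 : (L : ℝ) ≤ (2 * D m * (ρ * b ^ m)) ^ 2 := by
      calc (L : ℝ) = √(L : ℝ) ^ 2 := (Real.sq_sqrt hLp.le).symm
        _ ≤ _ := by gcongr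
    have h4 : F m ≤ 1 / L := by
      refine h1.trans ?_
      exact one_div_le_one_div_of_le hLp h3
    calc w m * F m ≤ 4 * (1 / L) := mul_le_mul (hw m hm).2 h4 (hF01 m).1 (by norm_num)
      _ = 4 / L := by ring
  have hsumL : ∑ _m ∈ Ico 1 L, (4 / L : ℝ) ≤ 4 := by
    rw [Finset.sum_const, Nat.card_Ico, nsmul_eq_mul]
    have h1 : ((L - 1 : ℕ) : ℝ) ≤ L := by
      have : L - 1 ≤ L := Nat.sub_le _ _
      exact_mod_cast this
    calc ((L - 1 : ℕ) : ℝ) * (4 / L) ≤ L * (4 / L) := by gcongr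
      _ = 4 := by field_simp
  by_cases hS : ∃ m, m ∈ Ico 1 L ∧ Near ((a : ℝ) ^ m * α + (b : ℝ) ^ m * β) (ρ * b ^ m)
  · obtain ⟨hm1, hr1⟩ := Nat.find_spec hS
    have hmin : ∀ m, m ∈ Ico 1 L → Near ((a : ℝ) ^ m * α + (b : ℝ) ^ m * β) (ρ * b ^ m) → Nat.find hS ≤ m :=
      fun m h1 h2 => Nat.find_min' hS ⟨h1, h2⟩
    set m₁ := Nat.find hS with hm₁
    have hkey : ∀ m ∈ Ico 1 L, w m * F m ≤ 4 / L + (if m = m₁ then 4 else 0) +
        (if m₁ < m then (π / 4) ^ 2 * (1 / 4096 : ℝ) ^ (m - m₁ - 1) else 0) := by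
      intro m hm
      have hLn : (0 : ℝ) ≤ 4 / L := by positivity
      by_cases hr : Near ((a : ℝ) ^ m * α + (b : ℝ) ^ m * β) (ρ * b ^ m)
      · have hle := hmin m hm hr
        rcases hle.eq_or_lt with he | hlt
        · rw [if_pos he.symm, if_neg (by omega)]
          have : w m * F m ≤ 4 * 1 := mul_le_mul (hw m hm).2 (hF01 m).2 (hF01 m).1 (by norm_num)
          linarith
        · rw [if_neg (by omega), if_pos hlt]
          have hm1' := Finset.mem_Ico.mp hm1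
          have hm' := Finset.mem_Ico.mp hm
          have hN := hAR2 a b L ha h2ab α β ρ m₁ m hm1'.1 hlt hm'.2 hρ0.le hr1 hr
          have hap : (0 : ℝ) < a := by linarith
          have hw3 := hw2 m hm _ (by positivity) hN
          -- the bound for the root
          have hroot : 2 * π * T m * (4 * MM1 a b L * ρ * b ^ m₁ / a ^ m₁) ≤ π / 4 * (1 / 64 : ℝ) ^ (m - m₁ - 1) := by
            obtain ⟨k, rfl⟩ : ∃ k, m = m₁ + 1 + k := ⟨m - m₁ - 1, by omega⟩
            have hk : m₁ + 1 + k - m₁ - 1 = k := by omega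
            rw [hk]
            have h1 := hT _ hm
            have h2 : (MM1 a b L : ℝ) * T (m₁ + 1 + k) ≤ 2 * ((a : ℝ) ^ (m₁ + 1 + k) * Y) / (κ ^ 2 * b ^ (m₁ + 1 + k)) := by
              rw [le_div_iff₀ (by positivity)]
              calc (MM1 a b L : ℝ) * T (m₁ + 1 + k) * (κ ^ 2 * b ^ (m₁ + 1 + k)) =
                  κ ^ 2 * (MM1 a b L * (b : ℝ) ^ (m₁ + 1 + k) * T (m₁ + 1 + k)) := by ring
                _ ≤ _ := h1
            have h3 : 2 * π * T (m₁ + 1 + k) * (4 * MM1 a b L * ρ * b ^ m₁ / a ^ m₁) =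
                (8 * π * ρ * b ^ m₁ / a ^ m₁) * (MM1 a b L * T (m₁ + 1 + k)) := by ring
            rw [h3]
            have h4 : (8 * π * ρ * b ^ m₁ / a ^ m₁) * (2 * ((a : ℝ) ^ (m₁ + 1 + k) * Y) / (κ ^ 2 * b ^ (m₁ + 1 + k))) =
                16 * π * (a * √(L : ℝ) / (κ ^ 2 * b)) * (a / b) ^ k := by
              rw [hρ, pow_add, pow_add, pow_one, pow_add, pow_add, pow_one, div_pow]
              field_simp
              ring
            have h5 : a * √(L : ℝ) / (κ ^ 2 * b) ≤ 1 / 64 := by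
              rw [div_le_div_iff₀ (by positivity) (by norm_num)]
              linarith
            have h6 : (a : ℝ) / b ≤ 1 / 64 := by
              rw [div_le_div_iff₀ hbp (by norm_num)]
              linarith
            calc (8 * π * ρ * b ^ m₁ / a ^ m₁) * (MM1 a b L * T (m₁ + 1 + k)) ≤
                (8 * π * ρ * b ^ m₁ / a ^ m₁) * (2 * ((a : ℝ) ^ (m₁ + 1 + k) * Y) / (κ ^ 2 * b ^ (m₁ + 1 + k))) := by
                  gcongr
              _ = 16 * π * (a * √(L : ℝ) / (κ ^ 2 * b)) * (a / b) ^ k := h4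
              _ ≤ 16 * π * (1 / 64) * (1 / 64) ^ k := by gcongr
              _ = π / 4 * (1 / 64 : ℝ) ^ k := by ring
          have hnn : 0 ≤ 2 * π * T m * (4 * MM1 a b L * ρ * b ^ m₁ / a ^ m₁) := by positivity
          have hw4 : w m ≤ (π / 4) ^ 2 * (1 / 4096 : ℝ) ^ (m - m₁ - 1) := by
            calc w m ≤ _ := hw3
              _ ≤ (π / 4 * (1 / 64 : ℝ) ^ (m - m₁ - 1)) ^ 2 := by gcongr
              _ = (π / 4) ^ 2 * (1 / 4096 : ℝ) ^ (m - m₁ - 1) := by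
                rw [mul_pow, ← pow_mul, mul_comm (m - m₁ - 1) 2, pow_mul]
                norm_num
          have : w m * F m ≤ ((π / 4) ^ 2 * (1 / 4096 : ℝ) ^ (m - m₁ - 1)) * 1 :=
            mul_le_mul hw4 (hF01 m).2 (hF01 m).1 (by positivity)
          linarith
      · have h1 := hnon m hm hr
        have h2 : (0 : ℝ) ≤ if m = m₁ then 4 else 0 := by split_ifs <;> norm_num
        have h3 : (0 : ℝ) ≤ if m₁ < m then (π / 4) ^ 2 * (1 / 4096 : ℝ) ^ (m - m₁ - 1) else 0 := by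
          split_ifs
          · positivity
          · exact le_refl _
        linarith
    calc ∑ m ∈ Ico 1 L, w m * F m ≤ ∑ m ∈ Ico 1 L, ((4 / L : ℝ) + (if m = m₁ then (4 : ℝ) else 0) +
        (if m₁ < m then (π / 4) ^ 2 * (1 / 4096 : ℝ) ^ (m - m₁ - 1) else 0)) := Finset.sum_le_sum hkey
      _ = ∑ _m ∈ Ico 1 L, (4 / L : ℝ) + ∑ m ∈ Ico 1 L, (if m = m₁ then (4 : ℝ) else 0) +
        ∑ m ∈ Ico 1 L, (if m₁ < m then (π / 4) ^ 2 * (1 / 4096 : ℝ) ^ (m - m₁ - 1) else 0) := by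
          rw [Finset.sum_add_distrib, Finset.sum_add_distrib]
      _ ≤ 4 + 4 + 1 := by
          have h1 : ∑ m ∈ Ico 1 L, (if m = m₁ then (4 : ℝ) else 0) ≤ 4 := by
            rw [Finset.sum_ite_eq']
            split_ifs <;> norm_num
          have h2 := SM2_geom L m₁
          linarith
      _ = 9 := by norm_num
  · have hall : ∀ m ∈ Ico 1 L, w m * F m ≤ 4 / L := fun m hm => hnon m hm fun h => hS ⟨m, hm, h⟩
    calc ∑ m ∈ Ico 1 L, w m * F m ≤ ∑ _m ∈ Ico 1 L, (4 / L : ℝ) := Finset.sum_le_sum hall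
      _ ≤ 9 := by linarith

end Pool.Agent.OP
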